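import Pool.Agent.Helper45.U4.St3

/-!
# Project U4 (MP_a1f43d_co), module LHP: a line off a few points
-/

set_option autoImplicit false

open Module Classical
open scoped LinearAlgebra.Projectivization

namespace Pool.Agent.Helper11.U4

open Pool.Agent.Helper45.U4 Pool.Agent.Helper53.PB

section
variable {F V : Type} [Field F] [AddCommGroup V] [Module F V]

/-- decomposition along a hyperbolic pair -/
private theorem exists_dec (φ : Form F V) {v w : V} (hv : φ.Sing v) (hw : φ.f w v ≠ 0) (y : V) :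
    ∃ h ∈ perp2 φ v w, ∃ a b : F, y = h + (a • v + b • w) := by
  have hvw : φ.f v w ≠ 0 := fun h => hw (φ.f_symm _ _ h)
  have hvv : φ.f v v = 0 := φ.toPolar.sing_self v hv
  obtain ⟨b, hb⟩ : ∃ b, b = φ.f v y / φ.f v w := ⟨_, rfl⟩
  obtain ⟨a, ha⟩ : ∃ a, a = (φ.f w y - b * φ.f w w) / φ.f w v := ⟨_, rfl⟩
  have hb' : b * φ.f v w = φ.f v y := by rw [hb, div_mul_cancel₀ _ hvw]
  have ha' : a * φ.f w v = φ.f w y - b * φ.f w w := by rw [ha, div_mul_cancel₀ _ hw]
  refine ⟨y - (a • v + b • w), ?_, a, b, by abel⟩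
  unfold perp2
  rw [Submodule.mem_inf, LinearMap.mem_ker, LinearMap.mem_ker]
  constructor
  · simp only [map_sub, map_add, map_smul, smul_eq_mul, hvv]
    linear_combination -hb'
  · simp only [map_sub, map_add, map_smul, smul_eq_mul]
    linear_combination -ha'

/-- a vector perpendicular to a generator of rank three lies in it -/
private theorem mem_gen (h1 : StHF) [FiniteDimensional F V] (φ : Form F V) (hs : Hs φ 3)
    {U : Submodule F V} (hU : φ.toPolar.Gen U) {z : V} (hz : ∀ a ∈ U, φ.f a z = 0) : z ∈ U := by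
  obtain ⟨_, _, hadd, _, _, _, _, hnd⟩ := h1 φ hs.kind hs.card
  have hF : Finite F := hs.finF
  have hV : Finite V := Module.finite_of_finite F
  have hD : Finite (Dual F V) := Module.finite_of_finite F
  obtain ⟨Pp, hPp⟩ : ∃ Pp : Submodule F V, Pp = ⨅ a : U, LinearMap.ker (φ.f a) := ⟨_, rfl⟩
  have hmem : ∀ x, x ∈ Pp ↔ ∀ a ∈ U, φ.f a x = 0 := by
    intro x
    rw [hPp]
    simp only [Submodule.mem_iInf, LinearMap.mem_ker, Subtype.forall]
  have hle : U ≤ Pp := fun x hx => (hmem x).2 (fun a ha => hU.1.2 a ha x hx)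
  have hgf : finrank F U = 3 := hs.gen U hU
  have hdim : finrank F V = 6 := by rw [hs.dim]
  obtain ⟨g, hg⟩ : ∃ g : U → Pp.dualAnnihilator, ∀ a, (g a : Dual F V) = φ.f a :=
    ⟨fun a => ⟨φ.f a, by
      rw [Submodule.mem_dualAnnihilator]
      intro x hx
      exact (hmem x).1 hx a a.2⟩, fun a => rfl⟩
  have hginj : Function.Injective g := by
    intro a b hab
    have e : φ.f (a : V) = φ.f (b : V) := by rw [← hg, ← hg, hab]
    have e2 : ∀ y, φ.f ((a : V) - b) y = 0 := by
      intro y
      have e3 := hadd ((a : V) - b) b y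
      rw [sub_add_cancel, e] at e3
      linear_combination -e3
    exact Subtype.ext (sub_eq_zero.1 (hnd _ e2))
  have hcard := Nat.card_le_card_of_injective g hginj
  have hdU : Nat.card U = 4 ^ 3 := by
    rw [Module.natCard_eq_pow_finrank (K := F), hs.card, hgf]
  have hdA : Nat.card Pp.dualAnnihilator = 4 ^ finrank F Pp.dualAnnihilator := by
    rw [Module.natCard_eq_pow_finrank (K := F), hs.card]
  rw [hdU, hdA] at hcard
  have h3 : 3 ≤ finrank F Pp.dualAnnihilator := (Nat.pow_le_pow_iff_right (by norm_num)).1 hcard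
  have h4 := Subspace.finrank_add_finrank_dualAnnihilator_eq Pp
  have h5 : U = Pp := Submodule.eq_of_le_of_finrank_le hle (by omega)
  rw [h5]
  exact (hmem z).2 hz

/-- a subspace of dimension at least four of a space of rank three contains a vector of norm one -/
private theorem exists_norm (h1 : StHF) [FiniteDimensional F V] (φ : Form F V) (hs : Hs φ 3)
    {M : Submodule F V} (hM : 4 ≤ finrank F M) : ∃ u ∈ M, φ.f u u = 1 := by
  obtain ⟨⟨ω, hω⟩, _, hadd, hsm, hsq, hsing, h01, _⟩ := h1 φ hs.kind hs.card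
  by_contra hcon
  push Not at hcon
  have hz : ∀ u ∈ M, φ.f u u = 0 := fun u hu => (h01 u).resolve_right (hcon u hu)
  have hts : φ.toPolar.TS M := by
    constructor
    · intro u hu
      exact (hsing u).2 (hz u hu)
    · intro u hu u' hu'
      change φ.f u u' = 0
      by_contra hne
      obtain ⟨c, hc⟩ : ∃ c, c = ω / φ.f u u' := ⟨_, rfl⟩
      have hc' : c * φ.f u u' = ω := by rw [hc, div_mul_cancel₀ _ hne]
      have e := hz _ (Submodule.add_mem _ hu (Submodule.smul_mem _ c hu'))
      rw [hadd, hsm, map_add, map_add, map_smul, map_smul, hz u hu, hz u' hu', hsq u u',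
        smul_eq_mul, smul_eq_mul] at e
      have e2 : ω + ω ^ 2 = 0 := by
        rw [← hc']
        linear_combination e
      rw [hω.sq, ← add_assoc, hω.two, zero_add] at e2
      exact one_ne_zero e2
  obtain ⟨U, hU, hle⟩ := Polar.exists_gen_ge hts
  have e1 := Submodule.finrank_mono hle
  have e2 := hs.gen U hU
  omega

end

theorem hLHP (h1 : StHF) (h2 : StHRS) (h3 : StLOW) (h4 : StAVL) : StLHP := by
  intro F V _ _ _ _ _ _ φ hs x x' hx hx' hp Y hYc hY
  obtain ⟨hs0, _⟩ := h2 φ 3 hs x x' hx hp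
  have res := resForm_isRes φ hx hp
  obtain ⟨φ0, hφ0⟩ : ∃ φ0, φ0 = resForm φ hx hp := ⟨_, rfl⟩
  rw [← hφ0] at hs0 res
  obtain ⟨_, _, hadd, hsm, _, _, _, _⟩ := h1 φ hs.kind hs.card
  -- the components in the perpendicular space
  choose hh hhm ha hb hdec using fun y : V => exists_dec φ hx hp y
  have hne : ∀ y ∈ Y, (⟨hh y.rep, hhm y.rep⟩ : perp2 φ x x') ≠ 0 := by
    intro y hy h0
    have e : hh y.rep = 0 := congrArg Subtype.val h0
    apply (hY y hy).2
    rw [hdec y.rep, e, zero_add]
    exact Submodule.add_mem_sup (Submodule.smul_mem _ _ (Submodule.mem_span_singleton_self _))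
      (Submodule.smul_mem _ _ (Submodule.mem_span_singleton_self _))
  obtain ⟨B, hB⟩ : ∃ B : Finset (ℙ F (perp2 φ x x')), B =
      (Y.attach.image (fun y => Projectivization.mk F
        (⟨hh y.1.rep, hhm y.1.rep⟩ : perp2 φ x x') (hne y.1 y.2))).filter
          (fun P => φ0.Sing P.rep) := ⟨_, rfl⟩
  have hBc : B.card ≤ 20 := by
    rw [hB]
    refine (Finset.card_filter_le _ _).trans (Finset.card_image_le.trans ?_)
    rw [Finset.card_attach]
    exact hYc
  obtain ⟨W0, hW0, hW0B⟩ : ∃ W0, φ0.toPolar.Gen W0 ∧ ∀ P ∈ B, P.rep ∉ W0 := by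
    by_contra hcon
    push Not at hcon
    have hbl : φ0.toPolar.Block B := by
      refine ⟨fun P hP => ?_, hcon⟩
      rw [hB] at hP
      exact (Finset.mem_filter.1 hP).2
    have := h3 φ0 hs0 B hbl
    omega
  -- no point of Y is perpendicular to W0
  have hnp : ∀ y ∈ Y, ∃ a ∈ W0, φ.f y.rep (a : V) ≠ 0 := by
    intro y hy
    by_contra hcon
    push Not at hcon
    have hin : (⟨hh y.rep, hhm y.rep⟩ : perp2 φ x x') ∈ W0 := by
      apply mem_gen h1 φ0 hs0 hW0
      intro a haW
      apply φ0.f_symm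
      change φ0.toPolar.f _ a = 0
      rw [res.perp]
      change φ.f (hh y.rep) (a : V) = 0
      have e1 := hcon a haW
      rw [hdec y.rep, hadd, hadd, hsm, hsm] at e1
      have e2 : φ.f x (a : V) = 0 := a.2.1
      have e3 : φ.f x' (a : V) = 0 := a.2.2
      rw [e2, e3, mul_zero, mul_zero, add_zero, add_zero] at e1
      exact e1
    apply hW0B (Projectivization.mk F (⟨hh y.rep, hhm y.rep⟩ : perp2 φ x x') (hne y hy))
    · rw [hB, Finset.mem_filter]
      refine ⟨Finset.mem_image.2 ⟨⟨y, hy⟩, Finset.mem_attach _ _, rfl⟩, ?_⟩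
      exact hW0.1.1 _ ((rep_mk_mem _).2 hin)
    · exact (rep_mk_mem _).2 hin
  -- the image of W0 in V
  have hWts : φ.toPolar.TS (W0.map (perp2 φ x x').subtype) := by
    constructor
    · rintro _ ⟨z, hz, rfl⟩
      exact (res.sing z).1 (hW0.1.1 z hz)
    · rintro _ ⟨z, hz, rfl⟩ _ ⟨z', hz', rfl⟩
      exact (res.perp z z').1 (hW0.1.2 z hz z' hz')
  have hWd : finrank F (W0.map (perp2 φ x x').subtype) = 3 := by
    rw [← (Submodule.equivMapOfInjective _ (Submodule.injective_subtype _) W0).finrank_eq]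
    exact hs0.gen W0 hW0
  have hWH : W0.map (perp2 φ x x').subtype ≤ perp2 φ x x' := Submodule.map_subtype_le _ _
  obtain ⟨m, hmW, hmd, hmY⟩ := h4 (W0.map (perp2 φ x x').subtype)
    (Y.image (fun y => φ.f y.rep)) hs.card hWd (by
      intro g hg hle
      obtain ⟨y, hy, rfl⟩ := Finset.mem_image.1 hg
      obtain ⟨a, haW, hane⟩ := hnp y hy
      exact hane (hle (Submodule.mem_map_of_mem haW))) (Finset.card_image_le.trans hYc)
  have hmH : m ≤ perp2 φ x x' := hmW.trans hWH
  -- the vector u
  have hPd : 6 ≤ finrank F (perp2 φ x x') := by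
    have := finrank_perp2 φ hx hp
    have := hs.dim
    omega
  let b : Basis (Fin 2) F m := finBasisOfFinrankEq F m hmd
  obtain ⟨M, hMH, hMp, hMd⟩ := Polar.finrank_le_biInf (P := φ.toPolar) (perp2 φ x x')
    [(b 0 : V), (b 1 : V)]
  have hspan : ∀ a ∈ m, a ∈ Submodule.span F ({(b 0 : V), (b 1 : V)} : Set V) := by
    intro a ham
    have e := b.sum_repr ⟨a, ham⟩
    have e2 := congrArg Subtype.val e
    rw [Fin.sum_univ_two] at e2
    simp only [Submodule.coe_add, Submodule.coe_smul] at e2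
    rw [← e2]
    exact Submodule.add_mem _ (Submodule.smul_mem _ _ (Submodule.subset_span (by simp)))
      (Submodule.smul_mem _ _ (Submodule.subset_span (by simp)))
  have hM0 : 4 ≤ finrank F (M.comap (perp2 φ x x').subtype) := by
    rw [(Submodule.comapSubtypeEquivOfLe hMH).finrank_eq]
    simp only [List.length_cons, List.length_nil] at hMd
    omega
  obtain ⟨u, huM, hu1⟩ := exists_norm h1 φ0 hs0 hM0
  have hu1' : φ.f (u : V) (u : V) = 1 := by
    rw [← hu1, hφ0]
    exact (φ.restrict_f _ (perp2_nondeg φ hx hp) u u).symm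
  refine ⟨m, u, hWts.mono hmW, hmd, hmH, u.2, ?_, hu1', ?_⟩
  · intro a ham
    apply φ.f_symm
    change φ.toPolar.f a u = 0
    apply Polar.perp_span _ (hspan a ham)
    intro z hz
    apply hMp u huM
    rcases hz with rfl | hz
    · simp
    · rw [Set.mem_singleton_iff] at hz
      rw [hz]
      simp
  · intro y hy
    exact hmY _ (Finset.mem_image_of_mem _ hy)

end Pool.Agent.Helper11.U4
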